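import Pool.Agent.Q82.QMoeb

/-!
# MP_16d611_an : Crouzeix type bound for scaled `q`-numerical ranges

The inequality `‖p(A)‖ ≤ c(q) sup_{Ω_q} |p|` holds for all matrices, all `q` with `0 < |q| ≤ 1`
and all polynomials (whenever `W_q(A)` is nonempty, i.e. unless `n = 1` and `|q| < 1`).
-/

namespace Pool.Agent.Results.MP_16d611_an.SharpBound

open Polynomial

noncomputable section

/-- The operator on `ℂ^n` (with the Euclidean norm) given by the matrix `B`. -/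
def op {n : ℕ} (B : Matrix (Fin n) (Fin n) ℂ) :
    EuclideanSpace ℂ (Fin n) →L[ℂ] EuclideanSpace ℂ (Fin n) :=
  Matrix.toEuclideanCLM (𝕜 := ℂ) (n := Fin n) B

/-- The inner product `⟨x, y⟩ = ∑ xᵢ conj(yᵢ)`, linear in the first argument. -/
def ip {n : ℕ} (x y : EuclideanSpace ℂ (Fin n)) : ℂ := ∑ i, x i * (starRingEnd ℂ) (y i)

/-- The `q`-numerical range `W_q(A) = {⟨A x, y⟩ : ‖x‖ = ‖y‖ = 1, ⟨x, y⟩ = q}`. -/
def W {n : ℕ} (q : ℂ) (A : Matrix (Fin n) (Fin n) ℂ) : Set ℂ :=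
  {w | ∃ x y : EuclideanSpace ℂ (Fin n), ‖x‖ = 1 ∧ ‖y‖ = 1 ∧ ip x y = q ∧ w = ip (op A x) y}

/-- The scaled `q`-numerical range `Ω_q = W_q(A) / q`. -/
def Omega {n : ℕ} (q : ℂ) (A : Matrix (Fin n) (Fin n) ℂ) : Set ℂ :=
  {z | ∃ w ∈ W q A, z = w / q}

/-- The constant `c(q) = max(1, 2|q| / (1 + √(1 - |q|²)))`. -/
def c (q : ℂ) : ℝ := max 1 (2 * ‖q‖ / (1 + Real.sqrt (1 - ‖q‖ ^ 2)))

/-- `{|p(z)| : z ∈ Ω_q}`. -/
def values {n : ℕ} (q : ℂ) (A : Matrix (Fin n) (Fin n) ℂ) (p : ℂ[X]) : Set ℝ :=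
  {r | ∃ z ∈ Omega q A, r = ‖p.eval z‖}

lemma ip_eq {n : ℕ} (x y : EuclideanSpace ℂ (Fin n)) : ip x y = inner ℂ y x := by
  rw [PiLp.inner_apply]
  simp [ip]

lemma norm_le {n : ℕ} {q : ℂ} {A : Matrix (Fin n) (Fin n) ℂ} {z : ℂ}
    (hz : z ∈ Omega q A) : ‖z‖ ≤ ‖op A‖ / ‖q‖ := by
  obtain ⟨w, ⟨x, y, hx, hy, _, rfl⟩, rfl⟩ := hz
  rw [norm_div, ip_eq]
  gcongr
  calc ‖inner ℂ y (op A x)‖ ≤ ‖y‖ * ‖op A x‖ := norm_inner_le_norm _ _
    _ ≤ ‖y‖ * (‖op A‖ * ‖x‖) := by gcongr; exact (op A).le_opNorm x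
    _ = ‖op A‖ := by rw [hx, hy]; ring

lemma bdd {n : ℕ} (q : ℂ) (A : Matrix (Fin n) (Fin n) ℂ) (p : ℂ[X]) :
    BddAbove (values q A p) := by
  have h2 : IsCompact (Metric.closedBall (0 : ℂ) (‖op A‖ / ‖q‖)) := isCompact_closedBall _ _
  have h3 : Continuous (fun μ : ℂ => ‖p.eval μ‖) := p.continuous.norm
  refine ((h2.image h3).bddAbove).mono ?_
  rintro r ⟨z, hz, rfl⟩
  exact ⟨z, by rw [mem_closedBall_zero_iff]; exact norm_le hz, rfl⟩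

/-- the standard way to produce points of `W_q(A)` -/
lemma mem_W {n : ℕ} {q : ℂ} {A : Matrix (Fin n) (Fin n) ℂ} {s : ℝ}
    (hsq : s ^ 2 * ‖q‖ ^ 2 = 1 - ‖q‖ ^ 2) (x v : EuclideanSpace ℂ (Fin n)) (hx : ‖x‖ = 1)
    (hv : inner ℂ v x = 0) (hvs : ‖v‖ = s) :
    q * (inner ℂ x (op A x) + inner ℂ v (op A x)) ∈ W q A := by
  refine ⟨x, (starRingEnd ℂ) q • (x + v), hx, ?_, ?_, ?_⟩
  · have h1 : ‖(starRingEnd ℂ) q • (x + v)‖ ^ 2 = 1 := by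
      rw [norm_smul, mul_pow, RCLike.norm_conj, sq ‖x + v‖,
        norm_add_sq_eq_norm_sq_add_norm_sq_of_inner_eq_zero (𝕜 := ℂ), hx, hvs]
      · nlinarith
      · rw [← inner_conj_symm, hv, map_zero]
    have h0 : 0 ≤ ‖(starRingEnd ℂ) q • (x + v)‖ := norm_nonneg _
    nlinarith
  · rw [ip_eq, inner_smul_left, inner_add_left, hv, inner_self_eq_norm_sq_to_K, hx]
    simp
  · rw [ip_eq, inner_smul_left, inner_add_left]
    simp

lemma exists_orth {n : ℕ} (hn : 2 ≤ n) (x : EuclideanSpace ℂ (Fin n)) (hx : ‖x‖ = 1) :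
    ∃ v : EuclideanSpace ℂ (Fin n), ‖v‖ = 1 ∧ inner ℂ v x = 0 := by
  obtain ⟨m, rfl⟩ : ∃ m, n = m + 2 := ⟨n - 2, by omega⟩
  have : Fact (Module.finrank ℂ (EuclideanSpace ℂ (Fin (m + 2))) = (m + 1) + 1) :=
    ⟨by simp⟩
  have hx0 : x ≠ 0 := by
    intro h; rw [h, norm_zero] at hx; exact zero_ne_one hx
  have h1 := Submodule.finrank_orthogonal_span_singleton (𝕜 := ℂ) (n := m + 1) hx0
  have h2 : Nontrivial (Submodule.span ℂ {x})ᗮ := by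
    apply Module.nontrivial_of_finrank_pos (R := ℂ)
    rw [h1]; omega
  obtain ⟨v, hv⟩ := exists_ne (0 : (Submodule.span ℂ {x})ᗮ)
  have hv0 : (v : EuclideanSpace ℂ (Fin (m + 2))) ≠ 0 := by
    intro h; apply hv; exact Subtype.ext h
  have hvn : ‖(v : EuclideanSpace ℂ (Fin (m + 2)))‖ ≠ 0 := norm_ne_zero_iff.2 hv0
  refine ⟨((‖(v : EuclideanSpace ℂ (Fin (m + 2)))‖⁻¹ : ℝ) : ℂ) • v, ?_, ?_⟩
  · rw [norm_smul, Complex.norm_real, norm_inv, norm_norm, inv_mul_cancel₀ hvn]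
  · rw [inner_smul_left]
    have : inner ℂ (v : EuclideanSpace ℂ (Fin (m + 2))) x = 0 :=
      (Submodule.mem_orthogonal_singleton_iff_inner_left (𝕜 := ℂ)).1 v.2
    rw [this, mul_zero]

lemma two_le {n : ℕ} {q : ℂ} {A : Matrix (Fin n) (Fin n) ℂ} (h : (W q A).Nonempty)
    (hq : ‖q‖ < 1) : 2 ≤ n := by
  obtain ⟨w, x, y, hx, hy, hxy, _⟩ := h
  by_contra hn
  have hn' : n = 0 ∨ n = 1 := by omega
  rcases hn' with rfl | rfl
  · have : x = 0 := Subsingleton.elim _ _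
    rw [this, norm_zero] at hx
    exact zero_ne_one hx
  · rw [EuclideanSpace.norm_eq] at hx hy
    simp only [Fin.sum_univ_one, ip] at hx hy hxy
    rw [Real.sqrt_sq (norm_nonneg _)] at hx hy
    rw [← hxy, norm_mul, RCLike.norm_conj, hx, hy] at hq
    norm_num at hq

lemma s_sq {q : ℂ} (hq0 : 0 < ‖q‖) (hq1 : ‖q‖ ≤ 1) :
    (Real.sqrt (1 - ‖q‖ ^ 2) / ‖q‖) ^ 2 * ‖q‖ ^ 2 = 1 - ‖q‖ ^ 2 := by
  rw [div_pow, Real.sq_sqrt (by nlinarith)]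
  field_simp

lemma nonempty_iff {n : ℕ} (q : ℂ) (A : Matrix (Fin n) (Fin n) ℂ) (hq0 : 0 < ‖q‖)
    (hq1 : ‖q‖ ≤ 1) : (W q A).Nonempty ↔ 2 ≤ n ∨ (n = 1 ∧ ‖q‖ = 1) := by
  constructor
  · intro h
    rcases hq1.lt_or_eq with hlt | heq
    · exact Or.inl (two_le h hlt)
    · obtain ⟨w, x, y, hx, hy, hxy, _⟩ := h
      have h0 : n ≠ 0 := by
        rintro rfl
        have : x = 0 := Subsingleton.elim _ _
        rw [this, norm_zero] at hx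
        exact zero_ne_one hx
      by_cases h2 : 2 ≤ n
      · exact Or.inl h2
      · exact Or.inr ⟨by omega, heq⟩
  · intro h
    have hn : 0 < n := by omega
    set x : EuclideanSpace ℂ (Fin n) := EuclideanSpace.single ⟨0, hn⟩ 1 with hx
    have hx1 : ‖x‖ = 1 := by rw [hx, PiLp.norm_single]; simp
    rcases h with h2 | ⟨h1, hq⟩
    · obtain ⟨v, hv, hvx⟩ := exists_orth h2 x hx1
      have hs0 : 0 ≤ Real.sqrt (1 - ‖q‖ ^ 2) / ‖q‖ := by positivity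
      refine ⟨_, mem_W (s_sq hq0 hq1) x
        ((((Real.sqrt (1 - ‖q‖ ^ 2) / ‖q‖ : ℝ)) : ℂ) • v) hx1 ?_ ?_⟩
      · rw [inner_smul_left, hvx, mul_zero]
      · rw [norm_smul, hv, mul_one, Complex.norm_real, Real.norm_of_nonneg hs0]
    · refine ⟨_, mem_W (s := 0) ?_ x 0 hx1 (inner_zero_left _) norm_zero⟩
      rw [hq]; norm_num

lemma bound {n : ℕ} (q : ℂ) (A : Matrix (Fin n) (Fin n) ℂ) (p : ℂ[X]) (hq0 : 0 < ‖q‖)
    (hq1 : ‖q‖ ≤ 1) (hW : (W q A).Nonempty) :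
    ‖op (aeval A p)‖ ≤ c q * sSup (values q A p) := by
  have hop : op (aeval A p) = aeval (op A) p := by
    unfold op
    exact (Polynomial.aeval_algHom_apply (Matrix.toEuclideanCLM (𝕜 := ℂ) (n := Fin n)) A p).symm
  have hn0 : 0 < n := by
    have := (nonempty_iff q A hq0 hq1).1 hW
    omega
  have : Nonempty (Fin n) := ⟨⟨0, hn0⟩⟩
  have hnt : Nontrivial (EuclideanSpace ℂ (Fin n)) := inferInstance
  have hq0' : q ≠ 0 := norm_pos_iff.1 hq0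
  set r : ℝ := Real.sqrt (1 - ‖q‖ ^ 2) with hr
  have hr0 : 0 ≤ r := Real.sqrt_nonneg _
  have hr2 : r ^ 2 = 1 - ‖q‖ ^ 2 := Real.sq_sqrt (by nlinarith)
  set t : ℝ := ‖q‖ / (1 + r) with ht
  have ht0 : 0 < t := by positivity
  have hM0 : 0 ≤ sSup (values q A p) := by
    apply Real.sSup_nonneg
    rintro _ ⟨z, _, rfl⟩
    exact norm_nonneg _
  have hc : c q = max 1 (2 * t) := by
    rw [c, ht, mul_div_assoc]
  rw [hop, hc]
  refine Q82.QR.main_bound (s := r / ‖q‖) (q := ‖q‖) (by positivity) ht0 hq0 ?_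
    (s_sq hq0 hq1) hM0 ?_ ?_
  · rw [ht]
    field_simp
    nlinarith
  · intro x v hx hvx hvs
    have hm := mem_W (A := A) (s_sq hq0 hq1) x v hx hvx hvs
    apply le_csSup (bdd q A p)
    refine ⟨_, ⟨_, hm, rfl⟩, ?_⟩
    rw [mul_div_cancel_left₀ _ hq0']
  · intro hs0 x hx
    apply exists_orth _ x hx
    apply two_le hW
    apply lt_of_le_of_ne hq1
    intro h
    apply hs0
    rw [hr, h]
    norm_num

/-- **The conjectured inequality holds.**  For every `n ≥ 1`, every `A ∈ M_n(ℂ)`, every `q` with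
`0 < |q| ≤ 1` for which `W_q(A)` is nonempty, and every polynomial `p`, the supremum of `|p|` over
`Ω_q = W_q(A)/q` is finite and `‖p(A)‖ ≤ c(q) sup_{Ω_q} |p|`.  Moreover `W_q(A)` is nonempty exactly
when `n ≥ 2`, or `n = 1` and `|q| = 1`. -/
theorem result :
    (∀ (n : ℕ) (A : Matrix (Fin n) (Fin n) ℂ) (q : ℂ) (p : ℂ[X]), 1 ≤ n → 0 < ‖q‖ → ‖q‖ ≤ 1 →
      (W q A).Nonempty →
        BddAbove (values q A p) ∧ ‖op (aeval A p)‖ ≤ c q * sSup (values q A p)) ∧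
    (∀ (n : ℕ) (A : Matrix (Fin n) (Fin n) ℂ) (q : ℂ), 0 < ‖q‖ → ‖q‖ ≤ 1 →
      ((W q A).Nonempty ↔ 2 ≤ n ∨ (n = 1 ∧ ‖q‖ = 1))) :=
  ⟨fun _ A q p _ h0 h1 hW => ⟨bdd q A p, bound q A p h0 h1 hW⟩,
    fun _ A q h0 h1 => nonempty_iff q A h0 h1⟩

end

end Pool.Agent.Results.MP_16d611_an.SharpBound
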